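import Mathlib
import Pool.Agent.H269C.Full
import Pool.Agent.H269C.Dioph
import Pool.Agent.H269C.Scheme

/-!
# Completely independent spanning trees of the hypercube

If `f n` is the largest number of completely independent spanning trees of `Q_n`, then
`f n / n → 1/2`.
-/

set_option autoImplicit false

namespace Pool.Agent.Results.MP_1433c5_co.LimitHalf

open Finset Filter Relation Pool.Agent.H269C

/-- The hypercube `Q_n`: 0/1-vectors, adjacent when they differ in exactly one coordinate. -/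
def Q (n : ℕ) : SimpleGraph (Fin n → Bool) where
  Adj x y := ∃! i, x i ≠ y i
  symm := ⟨by
    rintro x y ⟨i, hi, hu⟩
    exact ⟨i, fun h => hi h.symm, fun j hj => hu j (fun h => hj h.symm)⟩⟩
  loopless := ⟨by
    rintro x ⟨i, hi, _⟩
    exact hi rfl⟩

/-- The trees `T i` are completely independent: for distinct vertices `u`, `v`, the paths from
`u` to `v` in two different trees share no edge and no internal vertex. -/
def CompletelyIndependent {V : Type} {k : ℕ} (T : Fin k → SimpleGraph V) : Prop :=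
  ∀ i j, i ≠ j → ∀ u v, u ≠ v → ∀ (p : (T i).Walk u v) (q : (T j).Walk u v),
    p.IsPath → q.IsPath →
      (∀ e, e ∈ p.edges → e ∉ q.edges) ∧ ∀ x, x ∈ p.support → x ∈ q.support → x = u ∨ x = v

/-- `Q_n` contains `k` completely independent spanning trees. -/
def HasCIST (n k : ℕ) : Prop :=
  ∃ T : Fin k → SimpleGraph (Fin n → Bool),
    (∀ i, T i ≤ Q n ∧ (T i).IsTree) ∧ CompletelyIndependent T

/-- The largest `k` such that `Q_n` contains `k` completely independent spanning trees. -/
noncomputable def f (n : ℕ) : ℕ := sSup {k | HasCIST n k}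

theorem adj_flip {n : ℕ} (x : Fin n → Bool) (i : Fin n) : (Q n).Adj x (flip x i) := by
  refine ⟨i, ?_, ?_⟩
  · simp only [flip_self]
    cases x i <;> simp
  · intro j hj
    by_contra h
    exact hj (flip_ne x h).symm

/-! ### From schemes to trees -/

theorem internal {V : Type} {G : SimpleGraph V} (A : V → Prop)
    (hA : ∀ x a b, ¬ A x → G.Adj x a → G.Adj x b → a = b) {u v : V} (p : G.Walk u v)
    (hp : p.IsPath) (x : V) (hx : x ∈ p.support) (hu : x ≠ u) (hv : x ≠ v) : A x := by
  induction p with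
  | nil =>
    rw [SimpleGraph.Walk.support_nil, List.mem_singleton] at hx
    exact absurd hx hu
  | @cons u w v h q ih =>
    rw [SimpleGraph.Walk.cons_isPath_iff] at hp
    rw [SimpleGraph.Walk.support_cons, List.mem_cons] at hx
    rcases hx with hx | hx
    · exact absurd hx hu
    · by_cases hxw : x = w
      · subst hxw
        cases q with
        | nil => exact absurd rfl hv
        | @cons _ w' _ h' q' =>
          by_contra hAx
          have h1 := hA x u w' hAx h.symm h'
          apply hp.2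
          rw [SimpleGraph.Walk.support_cons, List.mem_cons]
          right
          rw [h1]
          exact q'.start_mem_support
      · exact ih hp.1 hx hxw hv

theorem cist_of_scheme {n K : ℕ} (h : Scheme (Fin n) K) : HasCIST n K := by
  classical
  obtain ⟨cls, sub, h1, h2⟩ := h
  let β : (Fin n → Bool) → Fin K → Bool := fun x j => if cls x < j then sub x else !(sub x)
  have hw : ∀ x j, ∃ w, cls x ≠ j → (Q n).Adj x w ∧ cls w = j ∧ sub w = β x j := by
    intro x j
    by_cases hx : cls x = j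
    · exact ⟨x, fun h => absurd hx h⟩
    · obtain ⟨i, hi1, hi2⟩ := h1 x j (β x j) hx
      exact ⟨flip x i, fun _ => ⟨adj_flip x i, hi1, hi2⟩⟩
  choose w hw using hw
  let G : Fin K → SimpleGraph (Fin n → Bool) := fun j =>
    { Adj := fun a b => (Q n).Adj a b ∧ ((cls a = j ∧ cls b = j) ∨ (cls a ≠ j ∧ b = w a j) ∨
        (cls b ≠ j ∧ a = w b j))
      symm := ⟨by
        rintro a b ⟨hab, h⟩
        refine ⟨hab.symm, ?_⟩
        rcases h with h | h | h
        · exact Or.inl ⟨h.2, h.1⟩
        · exact Or.inr (Or.inr h)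
        · exact Or.inr (Or.inl h)⟩
      loopless := ⟨by
        rintro a ⟨hab, _⟩
        exact (Q n).loopless.irrefl a hab⟩ }
  have hGQ : ∀ j, G j ≤ Q n := fun j a b h => h.1
  have hGw : ∀ j a, cls a ≠ j → (G j).Adj a (w a j) := fun j a ha =>
    ⟨(hw a j ha).1, Or.inr (Or.inl ⟨ha, rfl⟩)⟩
  have hreach : ∀ j a b, cls a = j → cls b = j → (G j).Reachable a b := by
    intro j a b ha hb
    have h3 := h2 a b (ha.trans hb.symm)
    clear hb
    have h4 : cls b = j ∧ (G j).Reachable a b := by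
      induction h3 with
      | refl => exact ⟨ha, SimpleGraph.Reachable.refl _⟩
      | tail _ hbc ih =>
        obtain ⟨hbc, i, rfl⟩ := hbc
        have h5 := hbc.symm.trans ih.1
        refine ⟨h5, ih.2.trans (SimpleGraph.Adj.reachable ?_)⟩
        exact ⟨adj_flip _ i, Or.inl ⟨ih.1, h5⟩⟩
    exact h4.2
  have hconn : ∀ j, (G j).Connected := by
    intro j
    have hto : ∀ a, ∃ b, cls b = j ∧ (G j).Reachable a b := by
      intro a
      by_cases ha : cls a = j
      · exact ⟨a, ha, SimpleGraph.Reachable.refl _⟩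
      · exact ⟨w a j, (hw a j ha).2.1, (hGw j a ha).reachable⟩
    have : Nonempty (Fin n → Bool) := ⟨fun _ => false⟩
    refine SimpleGraph.Connected.mk ?_
    intro a b
    obtain ⟨a', ha', hra⟩ := hto a
    obtain ⟨b', hb', hrb⟩ := hto b
    exact hra.trans ((hreach j a' b' ha' hb').trans hrb.symm)
  have hdisj : ∀ i j, i ≠ j → ∀ a b, (G i).Adj a b → (G j).Adj a b → False := by
    have hnorm : ∀ j a b, (G j).Adj a b → (cls a = j ∧ cls b = j) ∨
        (cls a ≠ j ∧ cls b = j ∧ sub b = β a j) ∨ (cls b ≠ j ∧ cls a = j ∧ sub a = β b j) := by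
      rintro j a b ⟨_, h | ⟨h, rfl⟩ | ⟨h, rfl⟩⟩
      · exact Or.inl h
      · exact Or.inr (Or.inl ⟨h, (hw a j h).2⟩)
      · exact Or.inr (Or.inr ⟨h, (hw b j h).2⟩)
    have hcross : ∀ i j, i ≠ j → ∀ a b, cls a = i → cls b = j → sub a = β b i →
        sub b = β a j → False := by
      intro i j hij a b ha hb h3 h4
      simp only [β, ha, hb] at h3 h4
      rcases lt_or_gt_of_ne hij with h5 | h5
      · rw [if_pos h5] at h4
        rw [if_neg (not_lt.2 h5.le)] at h3
        rw [h4] at h3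
        cases sub a <;> simp at h3
      · rw [if_neg (not_lt.2 h5.le)] at h4
        rw [if_pos h5] at h3
        rw [h3] at h4
        cases sub b <;> simp at h4
    intro i j hij a b hi hj
    rcases hnorm i a b hi with h3 | h3 | h3 <;> rcases hnorm j a b hj with h4 | h4 | h4
    · exact hij (h3.1.symm.trans h4.1)
    · exact hij (h3.2.symm.trans h4.2.1)
    · exact hij (h3.1.symm.trans h4.2.1)
    · exact hij (h3.2.1.symm.trans h4.2)
    · exact hij (h3.2.1.symm.trans h4.2.1)
    · exact hcross i j hij b a h3.2.1 h4.2.1 h3.2.2 h4.2.2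
    · exact hij (h3.2.1.symm.trans h4.1)
    · exact hcross i j hij a b h3.2.1 h4.2.1 h3.2.2 h4.2.2
    · exact hij (h3.2.1.symm.trans h4.2.1)
  have hleaf : ∀ j x a b, ¬ cls x = j → (G j).Adj x a → (G j).Adj x b → a = b := by
    have hone : ∀ j x a, ¬ cls x = j → (G j).Adj x a → a = w x j := by
      rintro j x a hx ⟨_, h | h | h⟩
      · exact absurd h.1 hx
      · exact h.2
      · exfalso
        apply hx
        rw [h.2]
        exact (hw a j h.1).2.1
    intro j x a b hx ha hb
    rw [hone j x a hx ha, hone j x b hx hb]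
  choose T hTG hTt using fun j => (hconn j).exists_isTree_le
  refine ⟨T, fun j => ⟨(hTG j).trans (hGQ j), hTt j⟩, ?_⟩
  intro i j hij u v huv p q hp hq
  constructor
  · intro e hep heq
    induction e using Sym2.ind with
    | _ a b =>
      exact hdisj i j hij a b (hTG i (p.adj_of_mem_edges hep)) (hTG j (q.adj_of_mem_edges heq))
  · intro x hxp hxq
    by_contra hcon
    push Not at hcon
    have e1 : cls x = i := internal (G := T i) (fun x => cls x = i)
      (fun x a b hx ha hb => hleaf i x a b hx (hTG i ha) (hTG i hb)) p hp x hxp hcon.1 hcon.2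
    have e2 : cls x = j := internal (G := T j) (fun x => cls x = j)
      (fun x a b hx ha hb => hleaf j x a b hx (hTG j ha) (hTG j hb)) q hq x hxq hcon.1 hcon.2
    exact hij (e1.symm.trans e2)

/-! ### The upper bound -/

theorem upper {n k : ℕ} (hn : 1 ≤ n) (h : HasCIST n k) : 2 * k ≤ n + 1 := by
  classical
  obtain ⟨T, hT, hCI⟩ := h
  have hdisj : ∀ i j, i ≠ j → ∀ a b, (T i).Adj a b → ¬ (T j).Adj a b := by
    intro i j hij a b h1 h2
    have h3 := (hCI i j hij a b h1.ne h1.toWalk h2.toWalk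
      (SimpleGraph.Walk.IsPath.of_adj h1) (SimpleGraph.Walk.IsPath.of_adj h2)).1 s(a, b)
    simp at h3
  have hcardV : Fintype.card (Fin n → Bool) = 2 ^ n := by simp
  have hE : ∀ i, (T i).edgeFinset.card + 1 = 2 ^ n := by
    intro i
    rw [(hT i).2.card_edgeFinset, hcardV]
  have hsum : ∑ i : Fin k, (T i).edgeFinset.card ≤ (Q n).edgeFinset.card := by
    rw [← card_biUnion]
    · apply card_le_card
      intro e he
      rw [mem_biUnion] at he
      obtain ⟨i, _, he⟩ := he
      rw [SimpleGraph.mem_edgeFinset] at he ⊢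
      exact SimpleGraph.edgeSet_mono (hT i).1 he
    · intro i _ j _ hij
      simp only [Function.onFun]
      rw [disjoint_left]
      intro e he he'
      rw [SimpleGraph.mem_edgeFinset] at he he'
      induction e using Sym2.ind with
      | _ a b => exact hdisj i j hij a b he he'
  have hdeg : ∀ x, (Q n).degree x ≤ n := by
    intro x
    rw [← SimpleGraph.card_neighborFinset_eq_degree]
    have : (Q n).neighborFinset x ⊆ univ.image (fun i : Fin n => Pool.Agent.H269C.flip x i) := by
      intro y hy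
      rw [SimpleGraph.mem_neighborFinset] at hy
      obtain ⟨i, hi, hu⟩ := hy
      rw [mem_image]
      refine ⟨i, mem_univ _, ?_⟩
      funext j
      by_cases hj : j = i
      · subst hj
        rw [flip_self]
        have : x j ≠ y j := hi
        cases hx : x j <;> cases hy : y j <;> simp_all
      · rw [flip_ne _ hj]
        by_contra h
        exact hj (hu j h)
    calc _ ≤ (univ.image (fun i : Fin n => Pool.Agent.H269C.flip x i)).card := card_le_card this
      _ ≤ (univ : Finset (Fin n)).card := card_image_le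
      _ = n := by simp
  have h2E : 2 * (Q n).edgeFinset.card ≤ n * 2 ^ n := by
    rw [← SimpleGraph.sum_degrees_eq_twice_card_edges]
    calc ∑ x, (Q n).degree x ≤ ∑ _x : Fin n → Bool, n := sum_le_sum (fun x _ => hdeg x)
      _ = n * 2 ^ n := by rw [sum_const, card_univ, hcardV, smul_eq_mul, mul_comm]
  have hk : ∑ i : Fin k, (T i).edgeFinset.card = k * (2 ^ n - 1) := by
    rw [sum_congr rfl (fun i _ => show (T i).edgeFinset.card = 2 ^ n - 1 by
      have := hE i; omega)]
    simp
  rw [hk] at hsum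
  have hn2 : n < 2 ^ n := Nat.lt_two_pow_self
  obtain ⟨N, hN⟩ : ∃ N, 2 ^ n = N + 1 := ⟨2 ^ n - 1, by omega⟩
  rw [hN] at hsum h2E hn2
  simp only [Nat.add_sub_cancel] at hsum
  have h5 : 2 * k * N ≤ (n + 1) * N := by nlinarith
  exact Nat.le_of_mul_le_mul_right h5 (by omega)

theorem bdd {n : ℕ} (hn : 1 ≤ n) : BddAbove {k | HasCIST n k} :=
  ⟨n + 1, fun k hk => by have := upper hn hk; omega⟩

theorem f_le {n : ℕ} (hn : 1 ≤ n) : 2 * f n ≤ n + 1 := by
  have h0 : HasCIST n 0 := ⟨Fin.elim0, fun i => i.elim0, fun i => i.elim0⟩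
  have hmem : f n ∈ {k | HasCIST n k} := Nat.sSup_mem ⟨0, h0⟩ (bdd hn)
  exact upper hn hmem

/-! ### The lower bound -/

theorem le_two_pow_sqrt {n : ℕ} (hn : 36 ≤ n) : n ≤ 2 ^ Nat.sqrt n := by
  have h1 : 6 ≤ Nat.sqrt n := by
    rw [Nat.le_sqrt]; omega
  have h2 : n < (Nat.sqrt n + 1) * (Nat.sqrt n + 1) := Nat.lt_succ_sqrt n
  have key : ∀ t : ℕ, 6 ≤ t → (t + 1) * (t + 1) ≤ 2 ^ t := by
    intro t ht
    induction t, ht using Nat.le_induction with
    | base => norm_num
    | succ t ht ih =>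
      rw [pow_succ]
      nlinarith
  have := key _ h1
  omega

theorem lower (ε : ℝ) (hε : 0 < ε) (hε1 : ε < 1) :
    ∃ n₀ : ℕ, ∀ n : ℕ, n₀ ≤ n → ∃ K : ℕ, HasCIST n K ∧ (1 / 2 - ε) * n ≤ K := by
  obtain ⟨n₁, hn₁⟩ := full_asymp ε hε hε1
  obtain ⟨n₂, hn₂⟩ := exists_nat_gt (400 / (ε * (1 - ε)) ^ 2)
  refine ⟨max (max 144 (4 * n₁)) n₂, fun n hn => ?_⟩
  have hn144 : 144 ≤ n := le_trans (le_trans (le_max_left _ _) (le_max_left _ _)) hn
  have hn4 : 4 * n₁ ≤ n := le_trans (le_trans (le_max_right _ _) (le_max_left _ _)) hn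
  have hn2' : n₂ ≤ n := le_trans (le_max_right _ _) hn
  have hnR : 400 / (ε * (1 - ε)) ^ 2 < n := lt_of_lt_of_le hn₂ (by exact_mod_cast hn2')
  set d := Nat.sqrt n with hd
  have hdd : d * d ≤ n := Nat.sqrt_le n
  have hd12 : 12 ≤ d := by
    rw [hd, Nat.le_sqrt]; omega
  have h4d : 4 * (3 * d) ≤ n := by nlinarith
  set n' := n - 3 * d with hn'
  have hn'1 : n₁ ≤ n' := by omega
  obtain ⟨M₀, hM₀, hfull⟩ := hn₁ n' hn'1
  -- cap the number of colours
  set M := min M₀ n' with hM
  have hn'R : (n' : ℝ) = n - 3 * d := by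
    rw [hn', Nat.cast_sub (by omega)]; push_cast; ring
  have hMR : (1 - ε) * n' ≤ M := by
    rw [hM, Nat.cast_min, le_min_iff]
    refine ⟨hM₀, ?_⟩
    have : (0 : ℝ) ≤ n' := Nat.cast_nonneg _
    nlinarith
  -- real estimates
  set σ := Real.sqrt n with hσ
  have hnpos : (0 : ℝ) < n := by
    have : 0 < n := by omega
    exact_mod_cast this
  have hσσ : σ * σ = n := Real.mul_self_sqrt hnpos.le
  have hσ0 : 0 < σ := Real.sqrt_pos.2 hnpos
  have hdσ : (d : ℝ) ≤ σ := Real.nat_sqrt_le_real_sqrt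
  have h1ε : 0 < 1 - ε := by linarith
  have hεε : 0 < ε * (1 - ε) := mul_pos hε h1ε
  have hσbig : 20 < σ * (ε * (1 - ε)) := by
    by_contra hcon
    push Not at hcon
    rw [div_lt_iff₀ (by positivity)] at hnR
    have h1 : (σ * (ε * (1 - ε))) * (σ * (ε * (1 - ε))) ≤ 20 * 20 :=
      mul_le_mul hcon hcon (by positivity) (by norm_num)
    have h2 : (σ * (ε * (1 - ε))) * (σ * (ε * (1 - ε))) = n * (ε * (1 - ε)) ^ 2 := by
      rw [← hσσ]; ring
    rw [h2] at h1
    linarith
  have hσε : 20 < σ * ε := by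
    have : σ * (ε * (1 - ε)) ≤ σ * ε := by
      apply mul_le_mul_of_nonneg_left _ hσ0.le
      nlinarith
    linarith
  have hσ1ε : 20 < σ * (1 - ε) := by
    have : σ * (ε * (1 - ε)) ≤ σ * (1 - ε) := by
      apply mul_le_mul_of_nonneg_left _ hσ0.le
      nlinarith
    linarith
  have hMlow : (1 - ε) * n - 3 * σ ≤ M := by
    have h1 : (1 - ε) * (n - 3 * d) ≤ M := by rw [← hn'R]; exact hMR
    have h2 : (1 - ε) * (3 * d) ≤ 3 * σ := by
      have : (0 : ℝ) ≤ d := Nat.cast_nonneg _
      nlinarith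
    linarith
  have hMbig : (16 : ℝ) ≤ M := by
    have h1 : 20 * σ ≤ (1 - ε) * n := by
      calc 20 * σ ≤ σ * (1 - ε) * σ := mul_le_mul_of_nonneg_right hσ1ε.le hσ0.le
        _ = (1 - ε) * (σ * σ) := by ring
        _ = (1 - ε) * n := by rw [hσσ]
    have h2 : 1 ≤ σ := by
      have h3 : (12 : ℝ) ≤ d := by exact_mod_cast hd12
      linarith
    linarith
  have hMn : (M : ℝ) ≤ n := by
    have : M ≤ n := le_trans (min_le_right _ _) (Nat.sub_le _ _)
    exact_mod_cast this
  set s := Nat.sqrt M with hs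
  have hM16 : 16 ≤ M := by exact_mod_cast hMbig
  have hs4 : 4 ≤ s := by
    rw [hs, Nat.le_sqrt]; omega
  have hss : s * s ≤ M := Nat.sqrt_le M
  have hsd : s ≤ d := by
    rw [hs, hd]
    exact Nat.sqrt_le_sqrt (le_trans (min_le_right _ _) (Nat.sub_le _ _))
  have hn2d : n ≤ 2 ^ d := le_two_pow_sqrt (by omega)
  have : NeZero s := ⟨by omega⟩
  have hfull2 : FullOn (Fin n') (ZMod s × ZMod s) := by
    have : Nonempty (ZMod s × ZMod s) := ⟨(0, 0)⟩
    refine hfull.of_card le_rfl ?_
    rw [Fintype.card_prod, ZMod.card, Fintype.card_fin]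
    exact hss.trans (min_le_left _ _)
  set K := ((s - 1) * (s - 1)) / 2 with hK
  have hs1 : (s - 1) * (s - 1) ≤ s * s := Nat.mul_le_mul (Nat.sub_le _ _) (Nat.sub_le _ _)
  have hs9 : 3 * 3 ≤ (s - 1) * (s - 1) := Nat.mul_le_mul (by omega) (by omega)
  have hMn' : M ≤ n := le_trans (min_le_right _ _) (Nat.sub_le _ _)
  have hscheme := scheme_of_full (n := n') (d := d) (s := s) (K := K) hfull2
    (by have : d < 2 ^ d := Nat.lt_two_pow_self
        omega)
    (by omega) (by omega) (by omega)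
  have e : (Fin n' ⊕ (Fin d ⊕ (Fin d ⊕ Fin d))) ≃ Fin n := by
    apply Fintype.equivFinOfCardEq
    simp only [Fintype.card_sum, Fintype.card_fin]
    omega
  refine ⟨K, cist_of_scheme (hscheme.congr e), ?_⟩
  have hK2 : (s - 1) * (s - 1) ≤ 2 * K + 1 := by omega
  have hKR : ((s : ℝ) - 1) * (s - 1) ≤ 2 * K + 1 := by
    have h1 : (((s - 1) * (s - 1) : ℕ) : ℝ) ≤ ((2 * K + 1 : ℕ) : ℝ) := by exact_mod_cast hK2
    push_cast [Nat.cast_sub (show 1 ≤ s by omega)] at h1
    exact h1
  set τ := Real.sqrt M with hτ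
  have hττ : τ * τ = M := Real.mul_self_sqrt (Nat.cast_nonneg _)
  have hτs : τ ≤ s + 1 := Real.real_sqrt_le_nat_sqrt_succ
  have hτσ : τ ≤ σ := Real.sqrt_le_sqrt hMn
  have hτ4 : 4 ≤ τ := by
    rw [hτ]
    apply Real.le_sqrt_of_sq_le
    linarith
  have h6 : (τ - 2) * (τ - 2) ≤ ((s : ℝ) - 1) * (s - 1) :=
    mul_self_le_mul_self (by linarith) (by linarith)
  have h61 : (τ - 2) * (τ - 2) = M - 4 * τ + 4 := by rw [← hττ]; ring
  have h7 : (M : ℝ) - 4 * σ ≤ 2 * K + 1 := by linarith
  have h8 : 7 * σ + 1 ≤ ε * n := by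
    have h9 : 20 * σ ≤ σ * ε * σ := mul_le_mul_of_nonneg_right hσε.le hσ0.le
    calc 7 * σ + 1 ≤ 20 * σ := by linarith
      _ ≤ σ * ε * σ := h9
      _ = ε * (σ * σ) := by ring
      _ = ε * n := by rw [hσσ]
  have h10 : (1 / 2 - ε) * (n : ℝ) = ((1 - ε) * n - ε * n) / 2 := by ring
  rw [h10]
  linarith

/-- **Main theorem.** If `f n` is the largest number of completely independent spanning trees of
the hypercube `Q_n`, then `f n / n` converges, with limit `1/2`. -/
theorem result : Tendsto (fun n : ℕ => (f n : ℝ) / n) atTop (nhds (1 / 2)) := by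
  rw [tendsto_order]
  constructor
  · intro a ha
    set ε := min ((1 / 2 - a) / 2) (1 / 2) with hε
    have hε0 : 0 < ε := lt_min (by linarith) (by norm_num)
    have hε1 : ε < 1 := lt_of_le_of_lt (min_le_right _ _) (by norm_num)
    have hεa : ε ≤ (1 / 2 - a) / 2 := min_le_left _ _
    obtain ⟨n₀, hn₀⟩ := lower ε hε0 hε1
    filter_upwards [eventually_ge_atTop (max n₀ 1)] with n hn
    obtain ⟨K, hK, hKn⟩ := hn₀ n (le_trans (le_max_left _ _) hn)
    have hn1 : 1 ≤ n := le_trans (le_max_right _ _) hn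
    have hnpos : (0 : ℝ) < n := by exact_mod_cast hn1
    have hKf : K ≤ f n := le_csSup (bdd hn1) hK
    have hKf' : (K : ℝ) ≤ f n := by exact_mod_cast hKf
    rw [lt_div_iff₀ hnpos]
    have : a * n < (1 / 2 - ε) * n := by
      apply mul_lt_mul_of_pos_right _ hnpos
      linarith
    linarith
  · intro a ha
    obtain ⟨n₀, hn₀⟩ := exists_nat_gt (1 / (a - 1 / 2))
    filter_upwards [eventually_ge_atTop (max n₀ 1)] with n hn
    have hn1 : 1 ≤ n := le_trans (le_max_right _ _) hn
    have hnpos : (0 : ℝ) < n := by exact_mod_cast hn1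
    have hnn : (n₀ : ℝ) ≤ n := by exact_mod_cast le_trans (le_max_left _ _) hn
    have h1 : 2 * (f n : ℝ) ≤ n + 1 := by exact_mod_cast f_le hn1
    have h2 : 1 / (a - 1 / 2) < n := lt_of_lt_of_le hn₀ hnn
    rw [div_lt_iff₀ (by linarith)] at h2
    rw [div_lt_iff₀ hnpos]
    nlinarith

end Pool.Agent.Results.MP_1433c5_co.LimitHalf
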